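import Mathlib
import Pool.Agent.TH565.CpU.Force

/-!
# Consistently there is no `C_p`-universal compact space of weight `κ`

For every uncountable cardinal `κ` it is consistent that no compact space of weight `κ` is
`C_p`-universal for weight `κ` (and so none is linearly `C_p`-universal).

* In ZFC: if `cf(𝔠) ≤ κ < 𝔠`, then no compact space of weight `κ` is `C_p`-universal for weight `κ`.
  In fact, if `𝔠` is singular, then for every compact space `W` of weight `< 𝔠` there is a compact
  space `X` of weight at most `cf(𝔠)` such that `C_p(X)` does not embed in `C_p(W)`. The embeddings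
  are arbitrary topological embeddings.
* Over every ground model, a ccc forcing notion (adding `ℶ_{κ + ω₁}` Cohen reals) preserves all
  cardinals and makes the continuum a cardinal larger than `κ` of cofinality `ℵ₁`.

Idea. `X` is the space `Cut L` of all cuts of a set `L ⊇ ℚ` of reals of size `cf(𝔠)`, and for
`r < t` in `L` let `f r t` be the characteristic function of the clopen interval of the cuts
between `r` and `t`. Let `T` be an embedding of `C_p(X)` in `C_p(W)` and `h r t = T (f r t) - T 0`.
For every `s ∈ L` there are a rational number `r < s`, `n ∈ ℕ` and a finite set `F ⊆ W` such that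
`|h r t|` is at least `1 / (n + 1)` at some point of `F` for `t ≥ s` and less than a quarter of it
on `F` for `r < t < s`. For fixed `n` and `r` take a countable dense set `Q` of such `s`. The
functions `h r t`, `t ∈ Q`, are described up to a small error by finite unions of members of a base
of `W`, and for `s ∈ Q` choose in an arbitrary way one finite set `y s ⊆ W` which satisfies the same
inequalities for `t ∈ Q` up to the error. Each continuous function on `C_p(X)` is continuous along
`t ↦ f r t` at all but countably many `t`. So for all but countably many `t` the function `h r t` is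
small on `y s` for `s > t` and not small on `y s` for `s < t`; so `t` is determined by a finite
union of members of the base and by the countable code. Hence `L` is covered by one of `𝔠` many sets
of size at most the weight of `W`, and this is impossible for a suitable `L` of size `cf(𝔠)`.
-/

set_option autoImplicit false

namespace Pool.Agent.Results.MP_32ee98_gt.NoUniversal

open Set Topology Cardinal Pool.Agent.TH565.CpU Pool.Agent.Helper669.Forcing

/-- The map `e` is linear. -/
def IsLin {X W : Type} [TopologicalSpace X] [TopologicalSpace W] (e : Cp X → Cp W) : Prop :=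
  ∀ (f g h : Cp X) (a b : ℝ), (∀ x, h.1 x = a * f.1 x + b * g.1 x) →
    ∀ w, (e h).1 w = a * (e f).1 w + b * (e g).1 w

/-- `W` is a compact Hausdorff space of weight `κ` and `C_p(X)` embeds in `C_p(W)` for every
compact Hausdorff space `X` of weight at most `κ`. -/
def CpUniversal (κ : Cardinal.{0}) (W : Type) [TopologicalSpace W] : Prop :=
  CompactSpace W ∧ T2Space W ∧ weight W = κ ∧
    ∀ (X : Type) [TopologicalSpace X] [CompactSpace X] [T2Space X], weight X ≤ κ →
      ∃ e : Cp X → Cp W, IsEmbedding e

/-- `W` is a compact Hausdorff space of weight `κ` and `C_p(X)` embeds linearly in `C_p(W)` for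
every compact Hausdorff space `X` of weight at most `κ`. -/
def LinCpUniversal (κ : Cardinal.{0}) (W : Type) [TopologicalSpace W] : Prop :=
  CompactSpace W ∧ T2Space W ∧ weight W = κ ∧
    ∀ (X : Type) [TopologicalSpace X] [CompactSpace X] [T2Space X], weight X ≤ κ →
      ∃ e : Cp X → Cp W, IsEmbedding e ∧ IsLin e

/-- There is no `C_p`-universal and no linearly `C_p`-universal compact space for weight `κ`. -/
def NoUniversalSpace (κ : Cardinal.{0}) : Prop :=
  (¬ ∃ (W : Type) (_ : TopologicalSpace W), CpUniversal κ W) ∧
    ¬ ∃ (W : Type) (_ : TopologicalSpace W), LinCpUniversal κ W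

theorem noUniversalSpace_of_phi {K Λ I : Type} {c : Λ → I} (hK : Infinite K) (hI : #I ≤ #K)
    (h : Phi K Λ I c) : NoUniversalSpace #K := by
  have h1 : ¬ ∃ (W : Type) (_ : TopologicalSpace W), CpUniversal #K W := by
    rintro ⟨W, _, hc, _, hw, hW⟩
    obtain ⟨X, hX1, hX2, hX3, hX4, hX5⟩ := exists_no_embedding h hK W hw.le
    exact hX5 (hW X (hX4.trans (max_le hI (aleph0_le_mk K))))
  refine ⟨h1, ?_⟩
  rintro ⟨W, hW0, hc, h2, hw, hW⟩
  refine h1 ⟨W, hW0, hc, h2, hw, fun X _ _ _ hX => ?_⟩
  obtain ⟨e, he, _⟩ := hW X hX
  exact ⟨e, he⟩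

/-- (A) For every uncountable cardinal `κ` there is a ccc forcing notion `P` such that every
condition forces that all cardinals of the ground model are cardinals, that the continuum is the
cardinal `#Λ`, where `#Λ` is larger than `κ` and has cofinality `ℵ₁`, and that the sentence
`Phi κ Λ I c` holds, where `#I = ℵ₁` (`PhiHolds` is the translation of `Phi` into the forcing
language). (B) In ZFC: `Phi K Λ I c`, where `K` is infinite and `#I ≤ #K`, implies that there is no
`C_p`-universal compact space for weight `#K` (and no linearly `C_p`-universal one). (C) In ZFC: if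
`cf(𝔠) ≤ κ < 𝔠` then there is no `C_p`-universal compact space for weight `κ` (and no linearly
`C_p`-universal one). -/
theorem result :
    (∀ κ : Cardinal.{0}, ℵ₀ < κ →
      ∃ (Λ I P : Type) (c : Λ → I) (_ : Preorder P), κ < #Λ ∧ (#Λ).ord.cof = ℵ₁ ∧ #I = ℵ₁ ∧
        Nonempty P ∧
        (∀ A : Set P, (∀ p ∈ A, ∀ q ∈ A, p ≠ q → ¬ ∃ r, r ≤ p ∧ r ≤ q) → A.Countable) ∧
        ∀ p : P, p ∈ CardinalsPreserved.{0, 0} P ∧ p ∈ ContinuumIs P #Λ ∧
          p ∈ PhiHolds P κ.out Λ I c) ∧
    (∀ (K Λ I : Type) (c : Λ → I), Infinite K → #I ≤ #K → Phi K Λ I c → NoUniversalSpace #K) ∧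
    (∀ κ : Cardinal.{0}, (𝔠 : Cardinal.{0}).ord.cof ≤ κ → κ < 𝔠 → NoUniversalSpace κ) := by
  have hcof : ℵ₀ ≤ (𝔠 : Cardinal.{0}).ord.cof := by
    rw [Ordinal.aleph0_le_cof_iff, Ordinal.one_lt_cof_iff]
    exact isSuccLimit_ord aleph0_le_continuum
  refine ⟨fun κ _ => exists_forcing κ, fun K Λ I c hK hI h => noUniversalSpace_of_phi hK hI h,
    fun κ h1 h2 => ?_⟩
  obtain ⟨Λ, I, c, hI, h⟩ := phi_of_cof h2
  have hinf : Infinite κ.out := infinite_iff.2 (by rw [mk_out]; exact hcof.trans h1)
  have := noUniversalSpace_of_phi hinf (by rw [mk_out, hI]; exact h1) h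
  rwa [mk_out] at this

end Pool.Agent.Results.MP_32ee98_gt.NoUniversal
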